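import Mathlib
import Pool.Agent.Q283.Q3.Natq

/-!
# The 3-part of the formula at the central point for `M` cubic twists at once, all `D`

`E_N : y² + N y = x³` over `ℚ` is `3`-isogenous to `x³ + y³ = N`. Let `m_1, …, m_M` be ANY different
cube-free numbers, `1` modulo `9`, with all prime divisors `1` modulo `3` (for example `1` and any
primes `1` modulo `9`). Let `D` run through ALL squarefree numbers prime to `3`, different from `±1`
modulo `9`, prime to the `m_k`, with exactly one prime divisor `2` modulo `3` and any number of prime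
divisors `1` modulo `3`, ordered by size (at least `c X / sqrt (log X)` of them up to `X`).

* For every such `D` and every `k` the model of `E_{D m_k}` is globally minimal, its `L`-function is
  entire, `u_k = L(E_{D m_k}, 1) |E(ℚ)_tors|² / (Ω ∏ c_p)` is integral at `3`, and it is a unit at `3` if
  and only if `E_{D m_k}(ℚ)` is finite and `Ш(E_{D m_k} / ℚ)[3^∞] = 0`: then the formula at the central
  point has the correct `3`-part.
* The `M` events are asymptotically INDEPENDENT: for every subset `A` of `{1, …, M}` the proportion of the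
  `D` for which exactly the curves `E_{D m_k}` with `k` in `A` have finite `E(ℚ)` and `Ш[3^∞] = 0` tends to
  `c ^ |A| (1 - c) ^ (M - |A|)`, `c = ∏_{i ≥ 1} (1 - 3^{-i}) = 0.5601…`. In particular the `3`-part of the
  formula holds for all the `M` curves `E_{D m_1}, …, E_{D m_M}` simultaneously, with `L(E_{D m_k}, 1) ≠ 0`,
  for the exact proportion `c ^ M` of the `D`.

The proof is an analysis of random matrices of cubic residue symbols `(p / q)_3` with `M` different
masks: the matrices of the `M` twists have the same entries up to fixed rows and columns and signs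
and nevertheless become independent in the limit.
-/

set_option autoImplicit false

open scoped Classical

namespace Pool.Agent.Results.MP_9c97e9_nt.JointFormulaCubicTwists

open Pool.Agent.Y703.CT
open Pool.Agent.W97.MT (IsGloballyMinimal)
open Pool.Agent.Y700 (Omega)

/-- The multipliers: different numbers, `1` modulo `9`, cube-free, all prime divisors `1` modulo `3`. -/
structure Multipliers {M : ℕ} (m : Fin M → ℕ) : Prop where
  inj : Function.Injective m
  nine : ∀ k, m k % 9 = 1
  one : ∀ (k : Fin M) (p : ℕ), p.Prime → p ∣ m k → p % 3 = 1 ∧ ¬ p ^ 3 ∣ m k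

/-- `D` is squarefree, prime to `3` and to the multipliers, not `±1` modulo `9`, and exactly one prime
divisor of `D` is `2` modulo `3`. -/
def InClass {M : ℕ} (m : Fin M → ℕ) (D : ℕ) : Prop :=
  Squarefree D ∧ Cls D ∧ ∀ k, D.Coprime (m k)

/-- The number of the `D ≤ X` in the class with the property `P`. -/
noncomputable def count {M : ℕ} (m : Fin M → ℕ) (P : ℕ → Prop) (X : ℕ) : ℕ :=
  ((Finset.Icc 1 X).filter fun D => InClass m D ∧ P D).card

/-- The `3`-part of the formula for `E_N`: the model `y² + N y = x³` is globally minimal, the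
`L`-function is entire, `u = L(E_N, 1) |E(ℚ)_tors|² / (Ω ∏ c_p)` is integral at the places above `3`, and
it is a unit there iff `E_N(ℚ)` is finite and `Ш(E_N / ℚ)[3^∞] = 0`. -/
def ThreePart (N : ℕ) : Prop := IsGloballyMinimal (WD N) ∧
  ∃ f : ℂ → ℂ, IsL (WD N) f ∧ ∃ u : ℂ,
    f 1 = u * (((Omega (WD N) : ℝ) : ℂ) * (tamProd (WD N) : ℂ) / (tors N : ℂ) ^ 2) ∧
    ThreeInt u ∧ (ThreeUnit u ↔ Triv3 N)

/-- `c = ∏_{i ≥ 1} (1 - 3^{-i})` -/
noncomputable def c : ℝ := ∏' i : ℕ, (1 - (1 / 3 : ℝ) ^ (i + 1))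

theorem result (M : ℕ) (m : Fin M → ℕ) (hm : Multipliers m) :
    (∀ D : ℕ, InClass m D → ∀ k, ThreePart (D * m k)) ∧
    (∀ A : Finset (Fin M), Filter.Tendsto (fun X : ℕ =>
        (count m (fun D => ∀ k, (Triv3 (D * m k) ↔ k ∈ A)) X : ℝ) / (count m (fun _ => True) X : ℝ))
      Filter.atTop (nhds (c ^ A.card * (1 - c) ^ (M - A.card)))) ∧
    (∃ (a : ℝ) (X₀ : ℕ), 0 < a ∧ ∀ X : ℕ, X₀ ≤ X →
      a * (X / Real.sqrt (Real.log X)) ≤ (count m (fun _ => True) X : ℝ)) ∧
    0.56 < c ∧ c < 0.5602 := by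
  have hA : ∀ k, Q283.Q3N.Adm (m k) := fun k => ⟨hm.nine k, fun p hp hd => hm.one k p hp hd⟩
  have hC : ∀ D : ℕ, InClass m D → ∀ k, Cls (D * m k) := fun D hD k =>
    Q283.Q3N.cls_mul hD.2.1 (hA k) (hD.2.2 k)
  refine ⟨fun D hD k => ?_, fun A => ?_, ?_, ?_⟩
  · obtain ⟨h1, f, h2, u, h3, h4, h5, -⟩ := fin_all (hC D hD k)
    exact ⟨h1, f, h2, u, h3, h4, h5⟩
  · refine (Q283.Q3N.law_N m hA hm.inj A).congr fun X => ?_
    unfold count
    congr 2
    · refine Pool.Agent.XLK.fcc fun D _ => ?_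
      constructor
      · rintro ⟨h1, h2, h3, h4⟩
        exact ⟨⟨h1, h2, h3⟩, fun k => (Q283.Q3N.triv_iff (hC D ⟨h1, h2, h3⟩ k)).trans (h4 k)⟩
      · rintro ⟨h1, h4⟩
        exact ⟨h1.1, h1.2.1, h1.2.2, fun k => (Q283.Q3N.triv_iff (hC D h1 k)).symm.trans (h4 k)⟩
    · exact Pool.Agent.XLK.fcc fun D _ => ⟨fun h => ⟨h, trivial⟩, fun h => h.1⟩
  · obtain ⟨a, X₀, ha, h⟩ := Q283.Q3N.low_N m hA
    refine ⟨a, X₀, ha, fun X hX => (h X hX).trans (le_of_eq ?_)⟩
    unfold count
    congr 1
    exact Pool.Agent.XLK.fcc fun D _ => ⟨fun h => ⟨h, trivial⟩, fun h => h.1⟩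
  · obtain ⟨h1, -, -, h4⟩ := Pool.Agent.Y461.CX.t_C3
    refine ⟨h4, ?_⟩
    have h5 := (abs_le.1 (h1 10)).1
    have h6 : ∏ i ∈ Finset.range 10, (1 - (1 / 3 : ℝ) ^ (i + 1)) < 0.56015 := by
      norm_num [Finset.prod_range_succ]
    have h7 : (1 / 3 : ℝ) ^ 10 < 0.00002 := by norm_num
    have h8 : c = Pool.Agent.Y703.CX.c3 := rfl
    rw [h8]
    linarith

end Pool.Agent.Results.MP_9c97e9_nt.JointFormulaCubicTwists
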