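import Pool.Agent.Q284.A.Dens
import Pool.Agent.Q284.A.Tor2
import Pool.Agent.Q155.KT.Pat

/-!
# The joint law of the predicted orders of `Ш` modulo `2` for all the twists of `X_0(14)` by the divisors
of `p_1 ⋯ p_k`

`E_M` (`M = 1` modulo `4`) is the quadratic twist of `X_0(14)` by `M`, in the minimal form `WM M`. Let `S` be
ANY finite set of discriminants of the class of the theorem `PerfectSquare` (squarefree of any sign, `1`
modulo `4`, a square modulo `7`, all prime factors different from `3` and split completely in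
`ℚ(√-1, √2, √-7)` or inert in `ℚ(√2)` and in `ℚ(√-7)`), with no condition on rank, `Ш` or `L`-series. Let
`p_1, …, p_k` be different split primes not dividing the elements of `S`, and consider the `2^k |S|`
curves `E_M`, `M = D ∏_{i ∈ U} p_i`, `D ∈ S`, `U ⊆ {1, …, k}`.

* For `M ≠ 1` the number `L(E_M, 1) #E_M(ℚ)_tors² / (Ω ∏ c_q)`, the order of `Ш(E_M)` predicted by the
  formula, is exactly `y_M²` with an integer `y_M`; and `y_M` modulo `2` is the determinant of an
  explicit symmetric matrix over `𝔽₂` made from the table of the `p_i`: the symbols of the `p_i` with the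
  primes of `S` and with each other, and whether `8` divides `#E_1(𝔽_{p_i})`. It is odd if and only if
  `E_M(ℚ)` is finite and `Ш(E_M)[2] = 0`; then the 2-part of the formula holds with `Ш(E_M)[2^∞] = 0`.
* The `2^k |S|` parities have an exact joint law: every pattern of parities occurs for exactly the
  proportion `γ` of the tuples of split primes `p_i ≤ X`, `X → ∞`, where `γ` is the proportion of the
  pattern among the determinants of all the tables. If all elements of `S` are good, the pattern with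
  all `2^k |S|` integers odd has a positive proportion.
* For `S = {1}`: all the `y_M` are odd if and only if `8` divides none of the `#E_1(𝔽_{p_i})` and the
  graph which joins `i` and `j` when `p_i` is not a square modulo `p_j` is a matching; the proportion is
  `I(k) / 2^(k (k+1)/2)`, `I(k)` the number of the involutions (`σ² = 1`) of `k` letters. The integer `y_M`
  for the full product `M = p_1 ⋯ p_k` is odd for exactly the proportion
  `(1 - 1/2) (1 - 1/8) ⋯ (1 - 1/2^(2m-1))`, `m = ⌊(k+1)/2⌋`.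

Inputs: the exact value as a square is helper284's theorem (`Pool/Agent/Q284/A`, see `PerfectSquare`), based
on the starting files `Z704`, `Z705`, `Y17`, `Y687`; the bilinear sums of quadratic symbols and the
equidistribution in boxes are those of helper710 and helper356 (`Y710/CQ`, `Y356/CQ`), the number of the
symmetric matrices that of helper839; Chebotarev's theorem for the symbols and the divisibility by `8`:
helper283 (`Pool/Agent/Q283/TW`). New here: `Pool/Agent/Q155/KT`.
-/

set_option autoImplicit false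

open Finset Filter Topology

namespace Pool.Agent.Results.MP_9c97e9_nt.JointParityLaw

open Pool.Agent.W97.MT (IsGloballyMinimal)
open Pool.Agent.Y700 (WM Omega IsL tamProd EQ)

/-- primes inert in `ℚ(√-7)` and in `ℚ(√2)` -/
def Inert (q : ℕ) : Prop :=
  q.Prime ∧ (q % 8 = 3 ∨ q % 8 = 5) ∧ (q % 7 = 3 ∨ q % 7 = 5 ∨ q % 7 = 6)

/-- primes congruent to `1` modulo `8` that split in `ℚ(√-7)` -/
def Split (p : ℕ) : Prop := p.Prime ∧ p % 8 = 1 ∧ (p % 7 = 1 ∨ p % 7 = 2 ∨ p % 7 = 4)

/-- the class of discriminants (`D = 1` is allowed): squarefree, `1` modulo `4`, a square modulo `7`, all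
prime factors different from `3` and split or inert as above -/
def Family (D : ℤ) : Prop := Squarefree D ∧ D % 4 = 1 ∧ (D % 7 = 1 ∨ D % 7 = 2 ∨ D % 7 = 4) ∧
  ∀ p : ℕ, p.Prime → (p : ℤ) ∣ D → p ≠ 3 ∧ (Split p ∨ Inert p)

open Classical in
/-- the number of the prime factors `p` of `M` with `-7` a square modulo `p`, plus half the number
of the others -/
noncomputable def expo (M : ℤ) : ℕ :=
  (M.natAbs.primeFactors.filter fun p => IsSquare (-7 : ZMod p)).card +
    (M.natAbs.primeFactors.filter fun p => ¬ IsSquare (-7 : ZMod p)).card / 2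

/-- the order of the torsion group of `E_M(ℚ)` -/
noncomputable def torsionOrder (M : ℤ) : ℕ :=
  Nat.card (AddCommGroup.torsion (EQ (WM M)).toAffine.Point)

/-- `L(E_M, 1) = z² Ω ∏ c_p / #E_M(ℚ)_tors²`: the order of `Ш` predicted by the formula is `z²` -/
def Quotient (M : ℤ) (z : ℝ) : Prop := ∀ f, IsL (WM M) f →
  f 1 = ((z ^ 2 * (Omega (WM M) * tamProd (WM M) / (torsionOrder M : ℝ) ^ 2) : ℝ) : ℂ)

/-- `E_M(ℚ)` is finite and `Ш(E_M/ℚ)` has no element of order two -/
def RankZeroShaTwo (M : ℤ) : Prop := Finite (EQ (WM M)).toAffine.Point ∧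
  ∀ x : Pool.Agent.TH841.SH.D.Sha (EQ (WM M)), 2 • x = 0 → x = 0

/-- the `2`-part of the leading-term formula with trivial `2`-part of `Ш`: `E_M(ℚ)` is
finite, `Ш(E_M/ℚ)[2^∞] = 0` and the quotient `L(E_M, 1) #E_M(ℚ)_tors² / (Ω ∏ c_p)` is the square of an
odd integer -/
def TwoPart (M : ℤ) : Prop := Finite (EQ (WM M)).toAffine.Point ∧
  (∀ (n : ℕ) (x : Pool.Agent.TH841.SH.D.Sha (EQ (WM M))), 2 ^ n • x = 0 → x = 0) ∧
  ∃ z : ℤ, Odd z ∧ Quotient M z

/-- the split primes dividing `D` -/
def splitPrimes (D : ℤ) : Finset ℕ := D.natAbs.primeFactors.filter fun p => p % 8 = 1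

/-- the number of points of `E_1 : y² = x³ + 5805 x - 285714` modulo `p`, the point at infinity included -/
noncomputable def points (p : ℕ) : ℕ :=
  Nat.card {q : ZMod p × ZMod p // q.2 ^ 2 = q.1 ^ 3 + 5805 * q.1 - 285714} + 1

open Classical in
/-- the symbol of `a` modulo `p`, additively -/
noncomputable def symbol (p a : ℕ) : ZMod 2 := if IsSquare (a : ZMod p) then 0 else 1

open Classical in
/-- `1` if the number of the points of `E_1` modulo `p` is not divisible by `8` -/
noncomputable def bit (p : ℕ) : ZMod 2 := if 8 ∣ points p then 0 else 1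

open Classical in
/-- the matrix of `D` over `𝔽₂`, indexed by the split primes dividing `D`: the entry at `i ≠ j` is the symbol
of `j` modulo `i`; the entry at `i` on the diagonal is the number of the prime factors `r ≠ i` of `D` which
are not squares modulo `i`, increased by `1` if the number of the points of `E_1` modulo `i` is not divisible
by `8` -/
noncomputable def mat (D : ℤ) : Matrix (splitPrimes D) (splitPrimes D) (ZMod 2) :=
  Matrix.of fun i j =>
    if i = j then
      (((D.natAbs.primeFactors.filter fun r : ℕ => r ≠ (i : ℕ) ∧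
        ¬ IsSquare (r : ZMod (i : ℕ))).card : ZMod 2) + if 8 ∣ points (i : ℕ) then 0 else 1)
    else if IsSquare (((j : ℕ)) : ZMod (i : ℕ)) then 0 else 1

/-- the matrix of `D ∏_{i ∈ U} p_i` when `v i r` is the symbol of `r` modulo `p_i`, `e i` the bit of
`p_i` and `a i j` the symbol of `p_j` modulo `p_i` -/
noncomputable def matU (D : ℤ) {k : ℕ} (v : Fin k → ℕ → ZMod 2) (e : Fin k → ZMod 2)
    (a : Fin k → Fin k → ZMod 2) (U : Finset (Fin k)) :
    Matrix (splitPrimes D ⊕ U) (splitPrimes D ⊕ U) (ZMod 2) :=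
  Matrix.fromBlocks (mat D + Matrix.diagonal fun r : splitPrimes D => ∑ i ∈ U, v i r)
    (Matrix.of fun r i => v i r) (Matrix.of fun i r => v i r)
    (Matrix.of fun i j => if i = j then
      ∑ r ∈ D.natAbs.primeFactors, v i r + ∑ l ∈ U.erase i, a i l + e i else a i j)

/-- `D ∏_{i ∈ U} p_i` -/
def twist {k : ℕ} (D : ℤ) (p : Fin k → ℕ) (U : Finset (Fin k)) : ℤ := D * ∏ i ∈ U, (p i : ℤ)

/-- the determinant of the matrix of `D ∏_{i ∈ U} p_i` -/
noncomputable def parity (D : ℤ) {k : ℕ} (p : Fin k → ℕ) (U : Finset (Fin k)) : ZMod 2 :=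
  (matU D (fun i r => symbol (p i) r) (fun i => bit (p i)) (fun i j => symbol (p i) (p j)) U).det

/-- the primes which divide an element of `S` -/
def primesOf (S : Finset ℤ) : Finset ℕ := S.biUnion fun D => D.natAbs.primeFactors

/-- the abstract tables: for each `i` the symbols with the primes in `R` and the bit of `p_i`, and the
symbols of the `p_i` with each other (symmetric, zero on the diagonal) -/
abbrev Table (R : Finset ℕ) (k : ℕ) : Type := (Fin k → (R → ZMod 2) × ZMod 2) ×
  {a : Fin k → Fin k → ZMod 2 // (∀ i j, a i j = a j i) ∧ ∀ i, a i i = 0}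

open Classical in
/-- the determinant of `D` and `U` for an abstract table -/
noncomputable def model {R : Finset ℕ} {k : ℕ} (x : Table R k) (D : ℤ) (U : Finset (Fin k)) :
    ZMod 2 :=
  (matU D (fun i r => if h : r ∈ R then (x.1 i).1 ⟨r, h⟩ else 0) (fun i => (x.1 i).2) x.2.1 U).det

/-- the proportion of the abstract tables whose determinants are given by `G` -/
noncomputable def γ (S : Finset ℤ) (k : ℕ) (G : ℤ → Finset (Fin k) → ZMod 2) : ℝ :=
  (Nat.card {x : Table (primesOf S) k // ∀ D ∈ S, ∀ U : Finset (Fin k), model x D U = G D U} : ℝ) /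
    (Nat.card (Table (primesOf S) k) : ℝ)

/-- the `p_i` are different split primes not dividing the elements of `S` -/
def Admissible (S : Finset ℤ) {k : ℕ} (p : Fin k → ℕ) : Prop :=
  Function.Injective p ∧ (∀ i, Split (p i)) ∧ ∀ D ∈ S, ∀ i, ¬ (p i : ℤ) ∣ D

open Classical in
/-- the tuples of split primes up to `X` -/
noncomputable def tuples (k X : ℕ) : Finset (Fin k → ℕ) :=
  Fintype.piFinset fun _ : Fin k => (range (X + 1)).filter fun p => Split p

open Classical in
/-- the proportion of the tuples of split primes up to `X` with the property `P` -/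
noncomputable def proportion {k : ℕ} (P : (Fin k → ℕ) → Prop) (X : ℕ) : ℝ :=
  (((tuples k X).filter fun p => P p).card : ℝ) / ((tuples k X).card : ℝ)

theorem zer_iff {M : ℤ} : Pool.Agent.Y682.YQ.Zer M ↔ RankZeroShaTwo M := by
  unfold Pool.Agent.Y682.YQ.Zer RankZeroShaTwo
  refine and_congr Iff.rfl (forall_congr' fun x => ?_)
  rw [two_nsmul]

theorem rz_iff {M : ℤ} (h : Family M) : RankZeroShaTwo M ↔ (Y687.MQ.matD M).det ≠ 0 := by
  rw [← zer_iff]
  exact Pool.Agent.Y682.YQ.zer_iff h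

theorem exists_root {D : ℤ} (h : D % 7 = 1 ∨ D % 7 = 2 ∨ D % 7 = 4) :
    ∃ β : ZMod 7, β ^ 2 = -((Pool.Agent.Q284.A.nrm D : ℤ) : ZMod 7) := by
  have key : ∀ z : ZMod 7, (z = 1 ∨ z = 2 ∨ z = 4) →
      (∃ β : ZMod 7, β ^ 2 = -(3 * z)) ∧ ∃ β : ZMod 7, β ^ 2 = z := by decide
  have hz : ((D : ℤ) : ZMod 7) = 1 ∨ ((D : ℤ) : ZMod 7) = 2 ∨ ((D : ℤ) : ZMod 7) = 4 := by
    have e : ((D : ℤ) : ZMod 7) = ((D % 7 : ℤ) : ZMod 7) := by
      have := ZMod.intCast_mod D 7
      exact_mod_cast this.symm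
    rw [e]
    rcases h with h | h | h <;> rw [h] <;> norm_num
  obtain ⟨h1, h2⟩ := key _ hz
  unfold Pool.Agent.Q284.A.nrm
  split_ifs
  · obtain ⟨β, hβ⟩ := h1
    exact ⟨β, by rw [hβ]; push_cast; ring⟩
  · obtain ⟨β, hβ⟩ := h2
    exact ⟨β, by rw [hβ]; push_cast; ring⟩

theorem exact {M : ℤ} (h : Family M) (h1 : M ≠ 1) :
    IsGloballyMinimal (WM M) ∧ tamProd (WM M) = (if 0 < M then 6 else 36) * 4 ^ expo M ∧
    torsionOrder M = 2 ∧ 0 < Omega (WM M) ∧ (∃ f, IsL (WM M) f) ∧
    ∃ y : ℤ, Quotient M y ∧ (Odd y ↔ RankZeroShaTwo M) ∧ (Odd y ↔ TwoPart M) := by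
  obtain ⟨hc, hf⟩ := Pool.Agent.Q284.A.fam (D := M) h h1
  obtain ⟨β, hβ⟩ := exists_root hc.2.2.2.1
  have h4 : M % 4 = 1 := h.2.1
  have ht : torsionOrder M = 2 := Pool.Agent.Q284.A.tor_two h4 hc.1 hc.2.1 hc.2.2.1
  obtain ⟨a1, a2, a3, a4, k, Y, k1, k2, k3, k4⟩ :=
    Pool.Agent.Q284.A.main_gen (D := M) hc (β := β) hβ
  have ht' : Pool.Agent.Q284.A.tor M = 2 := ht
  have hk : k = 1 := by omega
  have k5 : Quotient M (k * Y / 2 ^ expo M) := k4
  rw [hk, Nat.cast_one, one_mul] at k5
  obtain ⟨y, y1, y2⟩ := hf β hβ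
  have y1' : Pool.Agent.Q284.A.gross M β = 3 * 2 ^ expo M * y := y1
  rw [zer_iff] at y2
  have hY : Y = 2 ^ expo M * y := by
    have h3 : 3 * Y = 3 * (2 ^ expo M * y) := by rw [← k3, y1']; ring
    linarith
  have e : ((Y : ℝ) / 2 ^ expo M) = (y : ℝ) := by
    rw [hY]
    push_cast
    field_simp
  rw [e] at k5
  refine ⟨a1, a2, ht, a3, a4, y, k5, y2, ?_⟩
  constructor
  · intro hy
    have hz := y2.1 hy
    refine ⟨hz.1, fun n x hx => ?_, y, hy, k5⟩
    exact Pool.Agent.Q284.A.sha_two (D := M) h (zer_iff.2 hz) n x hx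
  · rintro ⟨h1, h2, -⟩
    exact y2.2 ⟨h1, fun x hx => h2 1 x (by rw [pow_one]; exact hx)⟩

open Classical in
theorem bit_eq {p : ℕ} (hp : Split p) : bit p = Q283.TW.xp1 p := by
  have h1 : (8 ∣ points p) ↔ 8 ∣ Y687.NN 1 p := Q283.TW.points_iff hp
  rw [Q283.TW.xp1_eq hp]
  unfold bit
  by_cases h8 : 8 ∣ points p
  · rw [if_pos h8, if_pos (h1.1 h8)]
  · rw [if_neg h8, if_neg (fun h => h8 (h1.2 h))]

open Classical in
theorem mat_eq {D : ℤ} (hD : Family D) : mat D = Y687.MQ.matD D := by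
  obtain ⟨hP, -, -, -⟩ := Y687.MQ.of_admD (D := D) hD
  ext i j
  have h1 : (8 ∣ points (i : ℕ)) ↔ 8 ∣ Y687.NN 1 (i : ℕ) :=
    Q283.TW.points_iff (hP i i.2)
  show (if i = j then
      (((D.natAbs.primeFactors.filter fun r : ℕ => r ≠ (i : ℕ) ∧
        ¬ IsSquare (r : ZMod (i : ℕ))).card : ZMod 2) + if 8 ∣ points (i : ℕ) then 0 else 1)
    else if IsSquare (((j : ℕ)) : ZMod (i : ℕ)) then 0 else 1) =
    (if i = j then
      (((D.natAbs.primeFactors.filter fun r : ℕ => r ≠ (i : ℕ) ∧
        ¬ IsSquare (r : ZMod (i : ℕ))).card : ZMod 2) + if 8 ∣ Y687.NN 1 (i : ℕ) then 0 else 1)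
    else if IsSquare (((j : ℕ)) : ZMod (i : ℕ)) then 0 else 1)
  by_cases h8 : 8 ∣ points (i : ℕ)
  · rw [if_pos h8, if_pos (h1.1 h8)]
  · rw [if_neg h8, if_neg (fun h => h8 (h1.2 h))]

open Classical in
theorem matU_eq {D : ℤ} (hD : Family D) {k : ℕ} (v : Fin k → ℕ → ZMod 2) (e : Fin k → ZMod 2)
    (a : Fin k → Fin k → ZMod 2) (U : Finset (Fin k)) : matU D v e a U = Q155.KT.big D U v e a := by
  unfold matU Q155.KT.big
  rw [mat_eq hD]
  rfl

theorem not_dvd_iff {D : ℤ} (hD : D ≠ 0) {p : ℕ} (hp : p.Prime) :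
    (¬ (p : ℤ) ∣ D) ↔ p ∉ D.natAbs.primeFactors := by
  rw [Nat.mem_primeFactors, Int.natCast_dvd]
  constructor
  · rintro h ⟨-, h2, -⟩
    exact h h2
  · intro h h2
    exact h ⟨hp, h2, Int.natAbs_ne_zero.2 hD⟩

theorem adm_iff {S : Finset ℤ} (h : ∀ D ∈ S, Family D) {k : ℕ} {p : Fin k → ℕ}
    (hp : ∀ i, Split (p i)) :
    Admissible S p ↔ Function.Injective p ∧ ∀ i, p i ∉ Q155.KT.prm S := by
  unfold Admissible
  refine and_congr_right fun _ => ?_
  constructor
  · rintro ⟨-, h1⟩ i hi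
    obtain ⟨D, hD, hi'⟩ := Finset.mem_biUnion.1 hi
    exact (not_dvd_iff (h D hD).1.ne_zero (hp i).1).1 (h1 D hD i) hi'
  · intro h1
    refine ⟨hp, fun D hD i => ?_⟩
    refine (not_dvd_iff (h D hD).1.ne_zero (hp i).1).2 fun hi => ?_
    exact h1 i (Finset.mem_biUnion.2 ⟨D, hD, hi⟩)

theorem parity_eq {S : Finset ℤ} (h : ∀ D ∈ S, Family D) {k : ℕ} {p : Fin k → ℕ}
    (hA : Admissible S p) {D : ℤ} (hD : D ∈ S) (U : Finset (Fin k)) :
    Family (twist D p U) ∧ (Y687.MQ.matD (twist D p U)).det = parity D p U ∧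
      parity D p U = Q155.KT.bdet D (Q155.KT.tab (Q155.KT.prm S) p) U := by
  have hp := hA.2.1
  obtain ⟨hinj, hR⟩ := (adm_iff h hp).1 hA
  have hpD : ∀ i, p i ∉ D.natAbs.primeFactors := fun i hi =>
    hR i (Finset.mem_biUnion.2 ⟨D, hD, hi⟩)
  have h1 := Q155.KT.adm_prod (h D hD) hp hinj hpD U
  have h2 := Q155.KT.det_big (h D hD) hp hinj hpD U
  have h3 := Q155.KT.det_tab h hp hinj hR hD U
  have h4 : parity D p U = (Q155.KT.big D U (fun i r => Q283.TW.nrp (p i) r)
      (fun i => Q283.TW.xp1 (p i)) (fun i j => Q283.TW.nrp (p i) (p j))).det := by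
    unfold parity
    rw [matU_eq (h D hD)]
    have e1 : (fun i => bit (p i)) = fun i => Q283.TW.xp1 (p i) := funext fun i => bit_eq (hp i)
    rw [e1]
    rfl
  refine ⟨h1.1, h2.trans h4.symm, ?_⟩
  rw [h4, ← h2]
  exact h3

theorem model_eq {S : Finset ℤ} (h : ∀ D ∈ S, Family D) {k : ℕ} (x : Table (primesOf S) k)
    {D : ℤ} (hD : D ∈ S) (U : Finset (Fin k)) : model x D U = Q155.KT.bdet D x U := by
  unfold model
  rw [matU_eq (h D hD)]
  rfl

theorem z2_cases (x : ZMod 2) : x = 0 ∨ x = 1 := by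
  revert x
  decide

theorem z2_ne {x : ZMod 2} : x ≠ 0 ↔ x = 1 := by
  revert x
  decide

theorem fam_one : ∀ D ∈ ({1} : Finset ℤ), Family D := by
  intro D hD
  rw [Finset.mem_singleton] at hD
  subst hD
  exact Q155.KT.adm_one

theorem prm_one : Q155.KT.prm {1} = ∅ := by
  unfold Q155.KT.prm
  rw [Finset.singleton_biUnion]
  simp

/-- **The joint law.** -/
theorem result :
    (∀ S : Finset ℤ, (∀ D ∈ S, Family D) →
      (∀ (k : ℕ) (p : Fin k → ℕ), Admissible S p → ∀ D ∈ S, ∀ U : Finset (Fin k),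
        Family (twist D p U) ∧ (RankZeroShaTwo (twist D p U) ↔ parity D p U = 1) ∧
        (twist D p U ≠ 1 → IsGloballyMinimal (WM (twist D p U)) ∧
          tamProd (WM (twist D p U)) = (if 0 < D then 6 else 36) * 4 ^ expo (twist D p U) ∧
          torsionOrder (twist D p U) = 2 ∧ 0 < Omega (WM (twist D p U)) ∧
          (∃ f, IsL (WM (twist D p U)) f) ∧
          ∃ y : ℤ, Quotient (twist D p U) y ∧ (y : ZMod 2) = parity D p U ∧
            (Odd y ↔ TwoPart (twist D p U)))) ∧
      (∀ (k : ℕ) (G : ℤ → Finset (Fin k) → ZMod 2), Tendsto (proportion fun p : Fin k → ℕ =>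
        Admissible S p ∧ ∀ D ∈ S, ∀ U : Finset (Fin k), parity D p U = G D U) atTop
        (𝓝 (γ S k G))) ∧
      ((∀ D ∈ S, RankZeroShaTwo D) → ∀ k : ℕ, 0 < γ S k fun _ _ => 1)) ∧
    (∀ (k : ℕ) (p : Fin k → ℕ), Admissible {1} p → ((∀ U : Finset (Fin k), parity 1 p U = 1) ↔
      (∀ i, ¬ 8 ∣ points (p i)) ∧
        ∀ i j l, ¬ IsSquare (p j : ZMod (p i)) → ¬ IsSquare (p l : ZMod (p i)) → j = l)) ∧
    (∀ k : ℕ, γ {1} k (fun _ _ => 1) =
      (Nat.card {σ : Equiv.Perm (Fin k) // σ * σ = 1} : ℝ) / 2 ^ (k * (k + 1) / 2)) ∧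
    ∀ k : ℕ, Tendsto (proportion fun p : Fin k → ℕ => Admissible {1} p ∧ parity 1 p univ = 1) atTop
      (𝓝 (∏ i ∈ range ((k + 1) / 2), (1 - (1 / 2 : ℝ) ^ (2 * i + 1)))) := by
  classical
  have hprop : ∀ (k : ℕ) (P : (Fin k → ℕ) → Prop) (X : ℕ), proportion P X =
      (((Q155.KT.tup k X).filter fun p => P p).card : ℝ) / ((Q155.KT.tup k X).card : ℝ) := by
    intro k P X
    unfold proportion Q155.KT.tup Q155.KT.spl tuples
    congr
  refine ⟨fun S hS => ⟨?_, ?_, ?_⟩, ?_, ?_, ?_⟩
  · intro k p hA D hD U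
    obtain ⟨h1, h2, -⟩ := parity_eq hS hA hD U
    have h3 : RankZeroShaTwo (twist D p U) ↔ parity D p U = 1 := by
      rw [rz_iff h1, h2, z2_ne]
    refine ⟨h1, h3, fun hne => ?_⟩
    obtain ⟨a1, a2, a3, a4, a5, y, y1, y2, y3⟩ := exact h1 hne
    have hpos : (0 : ℤ) < ∏ i ∈ U, (p i : ℤ) :=
      Finset.prod_pos fun i _ => by exact_mod_cast (hA.2.1 i).1.pos
    have hsg : (0 < twist D p U) ↔ 0 < D := by
      constructor
      · intro h
        exact (pos_iff_pos_of_mul_pos h).2 hpos
      · intro h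
        exact mul_pos h hpos
    refine ⟨a1, ?_, a3, a4, a5, y, y1, ?_, y3⟩
    · rw [a2]
      by_cases h0 : 0 < D
      · rw [if_pos h0, if_pos (hsg.2 h0)]
      · rw [if_neg h0, if_neg (fun h => h0 (hsg.1 h))]
    · rcases Int.even_or_odd y with hy | hy
      · have h4 : (y : ZMod 2) = 0 := (ZMod.intCast_zmod_eq_zero_iff_dvd y 2).2 hy.two_dvd
        rw [h4]
        rcases z2_cases (parity D p U) with h5 | h5
        · exact h5.symm
        · exact absurd (y2.2 (h3.2 h5)) (Int.not_odd_iff_even.2 hy)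
      · rw [h3.1 (y2.1 hy)]
        obtain ⟨m, rfl⟩ := hy
        push_cast
        rw [show (2 : ZMod 2) = 0 from rfl, zero_mul, zero_add]
  · intro k G
    have h := Q155.KT.table_law S hS k
      (fun x => ∀ D ∈ S, ∀ U : Finset (Fin k), Q155.KT.bdet D x U = G D U)
      (fun p : Fin k → ℕ => Admissible S p ∧ ∀ D ∈ S, ∀ U : Finset (Fin k), parity D p U = G D U)
      (by
        intro p hp
        constructor
        · rintro ⟨h1, h2⟩
          obtain ⟨h3, h4⟩ := (adm_iff hS hp).1 h1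
          refine ⟨h3, h4, fun D hD U => ?_⟩
          rw [← (parity_eq hS h1 hD U).2.2]
          exact h2 D hD U
        · rintro ⟨h1, h2, h3⟩
          have h4 : Admissible S p := (adm_iff hS hp).2 ⟨h1, h2⟩
          refine ⟨h4, fun D hD U => ?_⟩
          rw [(parity_eq hS h4 hD U).2.2]
          exact h3 D hD U)
    have e : γ S k G = (Nat.card {x : Q155.KT.Dta (Q155.KT.prm S) k // ∀ D ∈ S,
        ∀ U : Finset (Fin k), Q155.KT.bdet D x U = G D U} : ℝ) /
        (Nat.card (Q155.KT.Dta (Q155.KT.prm S) k) : ℝ) := by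
      unfold γ
      congr 2
      refine Nat.card_congr (Equiv.subtypeEquivRight fun x => ?_)
      refine forall_congr' fun D => forall_congr' fun hD => forall_congr' fun U => ?_
      rw [model_eq hS x hD]
      exact Iff.rfl
    rw [e]
    refine h.congr fun X => ?_
    rw [hprop]
  · intro hG k
    have h1 := Q155.KT.good_pos S (Q155.KT.prm S) k fun D hD => (rz_iff (hS D hD)).1 (hG D hD)
    have h2 : 0 < Nat.card (Q155.KT.Dta (Q155.KT.prm S) k) := by
      rw [Q155.KT.card_dta]
      positivity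
    have e : γ S k (fun _ _ => 1) = (Nat.card {x : Q155.KT.Dta (Q155.KT.prm S) k //
        Q155.KT.GoodD S x} : ℝ) / (Nat.card (Q155.KT.Dta (Q155.KT.prm S) k) : ℝ) := by
      unfold γ
      congr 2
      refine Nat.card_congr (Equiv.subtypeEquivRight fun x => ?_)
      refine forall_congr' fun D => forall_congr' fun hD => forall_congr' fun U => ?_
      rw [model_eq hS x hD, ← z2_ne]
      exact Iff.rfl
    rw [e]
    positivity
  · intro k p hA
    have hp := hA.2.1
    have h1 : (∀ U : Finset (Fin k), parity 1 p U = 1) ↔ Q155.KT.AG p := by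
      refine forall_congr' fun U => ?_
      rw [← z2_ne, ← (parity_eq fam_one hA (Finset.mem_singleton_self 1) U).2.1]
      exact Iff.rfl
    rw [h1, Q155.KT.ag_iff hp hA.1]
    refine and_congr (forall_congr' fun i => ?_) ?_
    · rw [← bit_eq (hp i)]
      unfold bit
      by_cases h8 : 8 ∣ points (p i)
      · rw [if_pos h8]
        exact ⟨fun h => absurd h.symm one_ne_zero, fun h => absurd h8 h⟩
      · rw [if_neg h8]
        exact ⟨fun _ => h8, fun _ => rfl⟩
    · have hn : ∀ a b : ℕ, Q283.TW.nrp a b ≠ 0 ↔ ¬ IsSquare (b : ZMod a) := by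
        intro a b
        unfold Q283.TW.nrp
        by_cases h : IsSquare (b : ZMod a)
        · rw [if_pos h]
          exact ⟨fun h' => absurd rfl h', fun h' => absurd h h'⟩
        · rw [if_neg h]
          exact ⟨fun _ => h, fun _ => one_ne_zero⟩
      unfold Q155.KT.Mt
      simp only [hn]
  · intro k
    rw [← Q155.KT.card_one k (Q155.KT.prm {1}) prm_one]
    unfold γ
    congr 2
    refine Nat.card_congr (Equiv.subtypeEquivRight fun x => ?_)
    refine forall_congr' fun D => forall_congr' fun hD => forall_congr' fun U => ?_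
    rw [model_eq fam_one x hD, ← z2_ne]
    exact Iff.rfl
  · intro k
    have h := Q155.KT.table_law {1} fam_one k (fun x => Q155.KT.bdet 1 x univ ≠ 0)
      (fun p : Fin k → ℕ => Admissible {1} p ∧ parity 1 p univ = 1) (by
        intro p hp
        constructor
        · rintro ⟨h1, h2⟩
          obtain ⟨h3, h4⟩ := (adm_iff fam_one hp).1 h1
          refine ⟨h3, h4, ?_⟩
          show Q155.KT.bdet 1 _ univ ≠ 0
          rw [← (parity_eq fam_one h1 (Finset.mem_singleton_self 1) univ).2.2, z2_ne]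
          exact h2
        · rintro ⟨h1, h2, h3⟩
          have h4 : Admissible {1} p := (adm_iff fam_one hp).2 ⟨h1, h2⟩
          refine ⟨h4, ?_⟩
          have h3' : Q155.KT.bdet 1 (Q155.KT.tab (Q155.KT.prm {1}) p) univ ≠ 0 := h3
          rw [← (parity_eq fam_one h4 (Finset.mem_singleton_self 1) univ).2.2, z2_ne] at h3'
          exact h3')
    rw [Q155.KT.card_full_one k _ prm_one] at h
    refine h.congr fun X => ?_
    rw [hprop]

end Pool.Agent.Results.MP_9c97e9_nt.JointParityLaw
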