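import Pool.Agent.Q284.A.Dens
import Pool.Agent.Q284.A.Tor2

/-!
# The quotient of Birch and Swinnerton-Dyer of the twists of `X_0(14)` is an explicit square

`E_D` (`D = 1` modulo `4`) is the quadratic twist of `X_0(14)` by `D`, in the minimal form `WM D`. The
exact constants (the sign of the Gauss sum, the two symbols, the Tamagawa numbers at `2` and `7`, the
divisibility by three, the torsion group) are new; the value up to a unit at two and the parity of the Gross sums come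
from the starting files `Pool/Agent/Z704`, `Pool/Agent/Z705`, `Pool/Agent/Y17`, and the exact
proportion from `Pool/Agent/Y703/CQ`.
-/

set_option autoImplicit false

open Finset Filter Topology

namespace Pool.Agent.Results.MP_9c97e9_nt.PerfectSquare

open Pool.Agent.W97.MT (IsGloballyMinimal)
open Pool.Agent.Y700 (WM Omega IsL tamProd EQ)

/-- the class of discriminants: `D ≠ 1, -3` squarefree, a nonzero square modulo `7`, and either
`D > 0`, `D = 1 mod 8`, `3 ∤ D` or `D < 0`, `D = 5 mod 8` -/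
def Class (D : ℤ) : Prop := Squarefree D ∧ D ≠ 1 ∧ D ≠ -3 ∧ (D % 7 = 1 ∨ D % 7 = 2 ∨ D % 7 = 4) ∧
  ((0 < D ∧ D % 8 = 1 ∧ ¬ (3 : ℤ) ∣ D) ∨ (D < 0 ∧ D % 8 = 5))

/-- the norm of the vectors: `3 D` for `D > 0`, `- D` for `D < 0` -/
def norm (D : ℤ) : ℤ := if 0 < D then 3 * D else -D

/-- the vectors of `ℤ³` with sum of squares `N` -/
noncomputable def vectors (N : ℤ) : Finset (Fin 3 → ℤ) :=
  (Fintype.piFinset fun _ => Icc (-N) N).filter fun v => v 0 ^ 2 + v 1 ^ 2 + v 2 ^ 2 = N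

/-- `v × (1, 2, 3) = β (1, 2, 3)` modulo `7` -/
def OnLine (β : ZMod 7) (v : Fin 3 → ℤ) : Prop :=
  3 * (v 1 : ZMod 7) - 2 * (v 2 : ZMod 7) = β ∧ (v 2 : ZMod 7) - 3 * (v 0 : ZMod 7) = 2 * β ∧
    2 * (v 0 : ZMod 7) - (v 1 : ZMod 7) = 3 * β

instance (β : ZMod 7) (v : Fin 3 → ℤ) : Decidable (OnLine β v) := by
  unfold OnLine; infer_instance

/-- the quadratic character modulo `3` -/
def chi3 (n : ℤ) : ℤ := if n % 3 = 1 then 1 else if n % 3 = 2 then -1 else 0

/-- the Gross sum: the vectors on the line, with the weight `χ₃(v₀ v₁ v₂)` for `D > 0` and the sign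
`χ₄(v₀ v₁ v₂)` for `D < 0` -/
noncomputable def gross (D : ℤ) (β : ZMod 7) : ℤ :=
  if 0 < D then
    ∑ v ∈ (vectors (norm D)).filter fun v => OnLine β v, chi3 (v 0) * chi3 (v 1) * chi3 (v 2)
  else
    ∑ v ∈ (vectors (norm D)).filter fun v => OnLine β v, if (v 0 * v 1 * v 2) % 4 = 1 then 1 else -1

/-- `β` is one of the two square roots of `- norm D` modulo `7` -/
def Root (D : ℤ) (β : ZMod 7) : Prop := β ^ 2 = -((norm D : ℤ) : ZMod 7)

open Classical in
/-- the number of the prime factors `p` of `D` with `-7` a square modulo `p`, plus half the number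
of the others (rounded down) -/
noncomputable def expo (D : ℤ) : ℕ :=
  (D.natAbs.primeFactors.filter fun p => IsSquare (-7 : ZMod p)).card +
    (D.natAbs.primeFactors.filter fun p => ¬ IsSquare (-7 : ZMod p)).card / 2

/-- the order of the torsion group of `E_D(ℚ)` -/
noncomputable def torsionOrder (D : ℤ) : ℕ :=
  Nat.card (AddCommGroup.torsion (EQ (WM D)).toAffine.Point)

/-- `L(E_D, 1) = z² Ω ∏ c_p / #E_D(ℚ)_tors²`: the order of `Ш` predicted by the formula is `z²` -/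
def Quotient (D : ℤ) (z : ℝ) : Prop := ∀ f, IsL (WM D) f →
  f 1 = ((z ^ 2 * (Omega (WM D) * tamProd (WM D) / (torsionOrder D : ℝ) ^ 2) : ℝ) : ℂ)

/-- primes inert in `ℚ(√-7)` and in `ℚ(√2)` -/
def Inert (q : ℕ) : Prop :=
  q.Prime ∧ (q % 8 = 3 ∨ q % 8 = 5) ∧ (q % 7 = 3 ∨ q % 7 = 5 ∨ q % 7 = 6)

/-- primes congruent to `1` modulo `8` that split in `ℚ(√-7)` -/
def Split (p : ℕ) : Prop := p.Prime ∧ p % 8 = 1 ∧ (p % 7 = 1 ∨ p % 7 = 2 ∨ p % 7 = 4)

/-- the family of discriminants `D ≠ 1`: squarefree, `1` modulo `4`, a square modulo `7`, all prime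
factors different from `3` and split or inert as above -/
def Family (D : ℤ) : Prop :=
  (Squarefree D ∧ D % 4 = 1 ∧ (D % 7 = 1 ∨ D % 7 = 2 ∨ D % 7 = 4) ∧
    ∀ p : ℕ, p.Prime → (p : ℤ) ∣ D → p ≠ 3 ∧ (Split p ∨ Inert p)) ∧ D ≠ 1

/-- `E_D(ℚ)` is finite and `Ш(E_D/ℚ)` has no element of order two -/
def RankZeroShaTwo (D : ℤ) : Prop := Finite (EQ (WM D)).toAffine.Point ∧
  ∀ x : Pool.Agent.TH841.SH.D.Sha (EQ (WM D)), 2 • x = 0 → x = 0

/-- the `2`-part of the Birch and Swinnerton-Dyer formula with trivial `2`-part of `Ш`: `E_D(ℚ)` is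
finite, `Ш(E_D/ℚ)[2^∞] = 0` and the quotient `L(E_D, 1) #E_D(ℚ)_tors² / (Ω ∏ c_p)` is the square of an
odd integer -/
def TwoPart (D : ℤ) : Prop := Finite (EQ (WM D)).toAffine.Point ∧
  (∀ (n : ℕ) (x : Pool.Agent.TH841.SH.D.Sha (EQ (WM D))), 2 ^ n • x = 0 → x = 0) ∧
  ∃ z : ℤ, Odd z ∧ Quotient D z

open Classical in
/-- the number of the `D` of the family between `a` and `b` -/
noncomputable def total (a b : ℤ) : ℕ := ((Icc a b).filter fun D => Family D).card

open Classical in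
/-- the number of those for which the `2`-part of the formula holds with trivial `Ш[2^∞]` -/
noncomputable def good (a b : ℤ) : ℕ := ((Icc a b).filter fun D => Family D ∧ TwoPart D).card

theorem exists_root {D : ℤ} (h : D % 7 = 1 ∨ D % 7 = 2 ∨ D % 7 = 4) : ∃ β : ZMod 7, Root D β := by
  have key : ∀ z : ZMod 7, (z = 1 ∨ z = 2 ∨ z = 4) →
      (∃ β : ZMod 7, β ^ 2 = -(3 * z)) ∧ ∃ β : ZMod 7, β ^ 2 = z := by decide
  have hz : ((D : ℤ) : ZMod 7) = 1 ∨ ((D : ℤ) : ZMod 7) = 2 ∨ ((D : ℤ) : ZMod 7) = 4 := by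
    have e : ((D : ℤ) : ZMod 7) = ((D % 7 : ℤ) : ZMod 7) := by
      have := ZMod.intCast_mod D 7
      exact_mod_cast this.symm
    rw [e]
    rcases h with h | h | h <;> rw [h] <;> norm_num
  obtain ⟨h1, h2⟩ := key _ hz
  unfold Root norm
  split_ifs
  · obtain ⟨β, hβ⟩ := h1
    exact ⟨β, by rw [hβ]; push_cast; ring⟩
  · obtain ⟨β, hβ⟩ := h2
    exact ⟨β, by rw [hβ]; push_cast; ring⟩

theorem zer_iff {D : ℤ} : Pool.Agent.Y682.YQ.Zer D ↔ RankZeroShaTwo D := by
  unfold Pool.Agent.Y682.YQ.Zer RankZeroShaTwo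
  refine and_congr Iff.rfl (forall_congr' fun x => ?_)
  rw [two_nsmul]

theorem general {D : ℤ} (h : Class D) {β : ZMod 7} (hβ : Root D β) :
    IsGloballyMinimal (WM D) ∧ tamProd (WM D) = (if 0 < D then 6 else 36) * 4 ^ expo D ∧
    torsionOrder D = 2 ∧ 0 < Omega (WM D) ∧ (∃ f, IsL (WM D) f) ∧
    ∃ Y : ℤ, gross D β = 3 * Y ∧ Quotient D (Y / 2 ^ expo D) := by
  have h4 : D % 4 = 1 := by rcases h.2.2.2.2 with h | h <;> omega
  have ht : torsionOrder D = 2 := Pool.Agent.Q284.A.tor_two h4 h.1 h.2.1 h.2.2.1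
  obtain ⟨a1, a2, a3, a4, k, Y, k1, k2, k3, k4⟩ :=
    Pool.Agent.Q284.A.main_gen (D := D) h (β := β) hβ
  have ht' : Pool.Agent.Q284.A.tor D = 2 := ht
  have hk : k = 1 := by omega
  refine ⟨a1, a2, ht, a3, a4, Y, k3, ?_⟩
  have k5 : Quotient D (k * Y / 2 ^ expo D) := k4
  rw [hk, Nat.cast_one, one_mul] at k5
  exact k5

theorem family {D : ℤ} (h : Family D) : Class D ∧ ∀ β : ZMod 7, Root D β →
    ∃ y : ℤ, gross D β = 3 * 2 ^ expo D * y ∧ Quotient D y ∧
      (Odd y ↔ RankZeroShaTwo D) ∧ (Odd y ↔ TwoPart D) := by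
  obtain ⟨hc, hf⟩ := Pool.Agent.Q284.A.fam (D := D) h.1 h.2
  have hc' : Class D := hc
  refine ⟨hc', fun β hβ => ?_⟩
  obtain ⟨y, y1, y2⟩ := hf β hβ
  have y1' : gross D β = 3 * 2 ^ expo D * y := y1
  rw [zer_iff] at y2
  obtain ⟨-, -, -, -, -, Y, k3, k4⟩ := general hc' hβ
  have hY : Y = 2 ^ expo D * y := by
    have h3 : 3 * Y = 3 * (2 ^ expo D * y) := by rw [← k3, y1']; ring
    linarith
  have e : ((Y : ℝ) / 2 ^ expo D) = (y : ℝ) := by
    rw [hY]
    push_cast
    field_simp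
  rw [e] at k4
  refine ⟨y, y1', k4, y2, ?_⟩
  constructor
  · intro hy
    have hz := y2.1 hy
    refine ⟨hz.1, fun n x hx => ?_, y, hy, k4⟩
    exact Pool.Agent.Q284.A.sha_two (D := D) h.1 (zer_iff.2 hz) n x hx
  · rintro ⟨h1, h2, -⟩
    exact y2.2 ⟨h1, fun x hx => h2 1 x (by rw [pow_one]; exact hx)⟩

theorem two_iff {D : ℤ} (h : Family D) : TwoPart D ↔ RankZeroShaTwo D := by
  obtain ⟨hc, hf⟩ := family h
  obtain ⟨β, hβ⟩ := exists_root hc.2.2.2.1
  obtain ⟨y, -, -, y1, y2⟩ := hf β hβ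
  rw [← y2, y1]

theorem det_iff {D : ℤ} (h : Family D) : TwoPart D ↔ (Y687.MQ.matD D).det ≠ 0 := by
  rw [two_iff h, ← zer_iff]
  exact Pool.Agent.Y682.YQ.zer_iff h.1

/-- **Theorem.** (1) For every `D` of the class: the equation `WM D` is minimal, `∏ c_p` is
`6 · 4^e` or `36 · 4^e`, the torsion group has order `2`, the Gross sum is `3 Y`, and the
quotient of Birch and Swinnerton-Dyer is exactly the square of `Y / 2^e`. (2) In the family the
Gross sum is `3 · 2^e · y`, the quotient is the square of the integer `y`, and `y` is odd if and only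
if `E_D(ℚ)` is finite with `Ш[2] = 0`, if and only if the `2`-part of the formula holds with
`Ш[2^∞] = 0`. (3), (4) The exact proportion of such `D` in the family, for each sign. -/
theorem result :
    (∀ D : ℤ, Class D → (∃ β : ZMod 7, Root D β) ∧ ∀ β : ZMod 7, Root D β →
      IsGloballyMinimal (WM D) ∧ tamProd (WM D) = (if 0 < D then 6 else 36) * 4 ^ expo D ∧
      torsionOrder D = 2 ∧ 0 < Omega (WM D) ∧ (∃ f, IsL (WM D) f) ∧
      ∃ Y : ℤ, gross D β = 3 * Y ∧ Quotient D (Y / 2 ^ expo D)) ∧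
    (∀ D : ℤ, Family D → Class D ∧ ∀ β : ZMod 7, Root D β →
      ∃ y : ℤ, gross D β = 3 * 2 ^ expo D * y ∧ Quotient D y ∧
        (Odd y ↔ RankZeroShaTwo D) ∧ (Odd y ↔ TwoPart D)) ∧
    Tendsto (fun X : ℕ => (good 1 X : ℝ) / (total 1 X : ℝ))
      atTop (𝓝 (∏' i : ℕ, (1 - (1 / 2 : ℝ) ^ (2 * i + 1)))) ∧
    Tendsto (fun X : ℕ => (good (-X) (-1) : ℝ) / (total (-X) (-1) : ℝ))
      atTop (𝓝 (∏' i : ℕ, (1 - (1 / 2 : ℝ) ^ (2 * i + 1)))) := by
  classical
  refine ⟨fun D hD => ⟨exists_root hD.2.2.2.1, fun β hβ => general hD hβ⟩, fun D hD => family hD,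
    ?_, ?_⟩
  · have h := Pool.Agent.Q284.A.prop_pos'
    unfold Y703.CQ.c2 at h
    refine h.congr fun X => congrArg₂ (fun a b : ℕ => (a : ℝ) / (b : ℝ)) ?_ ?_
    · refine congrArg Finset.card (Finset.ext fun D => ?_)
      refine (Finset.mem_filter).trans (Iff.trans ?_ (Finset.mem_filter).symm)
      exact and_congr_right fun _ => and_congr_right fun hD => (det_iff hD).symm
    · refine congrArg Finset.card (Finset.ext fun D => ?_)
      refine (Finset.mem_filter).trans (Iff.trans ?_ (Finset.mem_filter).symm)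
      exact Iff.rfl
  · have h := Y703.CQ.prop_neg
    unfold Y703.CQ.c2 at h
    refine h.congr fun X => congrArg₂ (fun a b : ℕ => (a : ℝ) / (b : ℝ)) ?_ ?_
    · refine congrArg Finset.card (Finset.ext fun D => ?_)
      refine (Finset.mem_filter).trans (Iff.trans ?_ (Finset.mem_filter).symm)
      refine and_congr_right fun hm => ?_
      have h1 := (Finset.mem_Icc.1 hm).2
      constructor
      · rintro ⟨k1, k2⟩
        have hF : Family D := ⟨k1, by omega⟩
        exact ⟨hF, (det_iff hF).2 k2⟩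
      · rintro ⟨k1, k2⟩
        exact ⟨k1.1, (det_iff k1).1 k2⟩
    · refine congrArg Finset.card (Finset.ext fun D => ?_)
      refine (Finset.mem_filter).trans (Iff.trans ?_ (Finset.mem_filter).symm)
      refine and_congr_right fun hm => ?_
      have h1 := (Finset.mem_Icc.1 hm).2
      exact ⟨fun k => ⟨k, by omega⟩, fun k => k.1⟩

end Pool.Agent.Results.MP_9c97e9_nt.PerfectSquare
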