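import Pool.Agent.Q284.A.Dens
import Pool.Agent.Q284.A.Tor2
import Pool.Agent.Q155.KT.Pat
import Pool.Agent.Q84.MB.C2
import Pool.Agent.Q84.MB.C3

/-!
# One prime for the 2-part of the formula for all the small twists of `X_0(14)`

`E_M` (`M = 1` modulo `4`) is the quadratic twist of `X_0(14)` by `M`, in the minimal form `WM M`.

For every large `x` there is a small exceptional set `S` of primes (at most `(log x) ^ (49 / 50)` of them, all
larger than a given bound `Z`) such that for at least `x ^ (1 - ε)` primes `p ≤ x` the 2-part of the exact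
formula of Birch and Swinnerton-Dyer is known for ALL the twists `E_{-p D}`, where `D` runs through a
huge set of discriminants whose prime factors are at most `δ log x` and outside `S`.

The exact value as a square is helper284's theorem (`Pool/Agent/Q284/A`, see `PerfectSquare`), the criterion
over `ℚ` is in the starting files `Y682`, `Y687`; new are the primes with prescribed symbols modulo almost all
small primes (`Pool/Agent/Q84/MB`, based on the relative Bombieri-Vinogradov theorem of `H378R2`).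
-/

set_option autoImplicit false

open Finset Filter Topology

namespace Pool.Agent.Results.MP_9c97e9_nt.SimultaneousTwoPart

open Pool.Agent.W97.MT (IsGloballyMinimal)
open Pool.Agent.Y700 (WM Omega IsL tamProd EQ)

/-- primes inert in `ℚ(√-7)` and in `ℚ(√2)` -/
def Inert (q : ℕ) : Prop :=
  q.Prime ∧ (q % 8 = 3 ∨ q % 8 = 5) ∧ (q % 7 = 3 ∨ q % 7 = 5 ∨ q % 7 = 6)

/-- primes congruent to `1` modulo `8` that split in `ℚ(√-7)` -/
def Split (p : ℕ) : Prop := p.Prime ∧ p % 8 = 1 ∧ (p % 7 = 1 ∨ p % 7 = 2 ∨ p % 7 = 4)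

/-- the class of discriminants (`D = 1` is allowed): squarefree, `1` modulo `4`, a square modulo `7`, all
prime factors different from `3` and split or inert as above -/
def Family (D : ℤ) : Prop := Squarefree D ∧ D % 4 = 1 ∧ (D % 7 = 1 ∨ D % 7 = 2 ∨ D % 7 = 4) ∧
  ∀ p : ℕ, p.Prime → (p : ℤ) ∣ D → p ≠ 3 ∧ (Split p ∨ Inert p)

open Classical in
/-- the number of the prime factors `p` of `M` with `-7` a square modulo `p`, plus half the number
of the others -/
noncomputable def expo (M : ℤ) : ℕ :=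
  (M.natAbs.primeFactors.filter fun p => IsSquare (-7 : ZMod p)).card +
    (M.natAbs.primeFactors.filter fun p => ¬ IsSquare (-7 : ZMod p)).card / 2

/-- the order of the torsion group of `E_M(ℚ)` -/
noncomputable def torsionOrder (M : ℤ) : ℕ :=
  Nat.card (AddCommGroup.torsion (EQ (WM M)).toAffine.Point)

/-- `L(E_M, 1) = z² Ω ∏ c_p / #E_M(ℚ)_tors²`: the order of `Ш` predicted by the formula is `z²` -/
def Quotient (M : ℤ) (z : ℝ) : Prop := ∀ f, IsL (WM M) f →
  f 1 = ((z ^ 2 * (Omega (WM M) * tamProd (WM M) / (torsionOrder M : ℝ) ^ 2) : ℝ) : ℂ)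

/-- `E_M(ℚ)` is finite and `Ш(E_M/ℚ)` has no element of order two -/
def RankZeroShaTwo (M : ℤ) : Prop := Finite (EQ (WM M)).toAffine.Point ∧
  ∀ x : Pool.Agent.TH841.SH.D.Sha (EQ (WM M)), 2 • x = 0 → x = 0

/-- the `2`-part of the leading-term formula with trivial `2`-part of `Ш`: the equation `WM M` is minimal,
`#E_M(ℚ)_tors = 2`, the product of the Tamagawa numbers is `6 · 4^e` or `36 · 4^e`, `E_M(ℚ)` is finite,
`Ш(E_M/ℚ)[2^∞] = 0`, `L(E_M, s)` is entire, and the order of `Ш` predicted by the formula is the square of an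
odd integer -/
def TwoPart (M : ℤ) : Prop :=
  IsGloballyMinimal (WM M) ∧ torsionOrder M = 2 ∧ tamProd (WM M) = (if 0 < M then 6 else 36) * 4 ^ expo M ∧
  0 < Omega (WM M) ∧ Finite (EQ (WM M)).toAffine.Point ∧
  (∀ (n : ℕ) (x : Pool.Agent.TH841.SH.D.Sha (EQ (WM M))), 2 ^ n • x = 0 → x = 0) ∧
  (∃ f, IsL (WM M) f) ∧ ∃ z : ℤ, Odd z ∧ Quotient M z

/-- the split primes dividing `D` -/
def splitPrimes (D : ℤ) : Finset ℕ := D.natAbs.primeFactors.filter fun p => p % 8 = 1

/-- the number of points of `E_1 : y² = x³ + 5805 x - 285714` modulo `p`, the point at infinity included -/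
noncomputable def points (p : ℕ) : ℕ :=
  Nat.card {q : ZMod p × ZMod p // q.2 ^ 2 = q.1 ^ 3 + 5805 * q.1 - 285714} + 1

open Classical in
/-- the matrix of `D` over `𝔽₂`, indexed by the split primes dividing `D`: the entry at `i ≠ j` is the symbol
of `j` modulo `i`; the entry at `i` on the diagonal is the number of the prime factors `r ≠ i` of `D` which
are not squares modulo `i`, increased by `1` if the number of the points of `E_1` modulo `i` is not divisible
by `8` -/
noncomputable def mat (D : ℤ) : Matrix (splitPrimes D) (splitPrimes D) (ZMod 2) :=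
  Matrix.of fun i j =>
    if i = j then
      (((D.natAbs.primeFactors.filter fun r : ℕ => r ≠ (i : ℕ) ∧
        ¬ IsSquare (r : ZMod (i : ℕ))).card : ZMod 2) + if 8 ∣ points (i : ℕ) then 0 else 1)
    else if IsSquare (((j : ℕ)) : ZMod (i : ℕ)) then 0 else 1

/-- all the prime factors of `D` are at most `t` and outside `S` -/
def Small (S : Finset ℕ) (t : ℝ) (D : ℤ) : Prop := ∀ q : ℕ, q.Prime → (q : ℤ) ∣ D → (q : ℝ) ≤ t ∧ q ∉ S

open Classical in
/-- the number of the primes `p ≤ x`, `p = 3` modulo `56`, with the property `P` -/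
noncomputable def count (P : ℕ → Prop) (x : ℕ) : ℕ :=
  ((Icc 1 x).filter fun p => p.Prime ∧ p % 56 = 3 ∧ P p).card

section proof

theorem zer_iff {M : ℤ} : Pool.Agent.Y682.YQ.Zer M ↔ RankZeroShaTwo M := by
  unfold Pool.Agent.Y682.YQ.Zer RankZeroShaTwo
  refine and_congr Iff.rfl (forall_congr' fun x => ?_)
  rw [two_nsmul]

theorem rz_iff {M : ℤ} (h : Family M) : RankZeroShaTwo M ↔ (Y687.MQ.matD M).det ≠ 0 := by
  rw [← zer_iff]
  exact Pool.Agent.Y682.YQ.zer_iff h

theorem exists_root {D : ℤ} (h : D % 7 = 1 ∨ D % 7 = 2 ∨ D % 7 = 4) :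
    ∃ β : ZMod 7, β ^ 2 = -((Pool.Agent.Q284.A.nrm D : ℤ) : ZMod 7) := by
  have key : ∀ z : ZMod 7, (z = 1 ∨ z = 2 ∨ z = 4) →
      (∃ β : ZMod 7, β ^ 2 = -(3 * z)) ∧ ∃ β : ZMod 7, β ^ 2 = z := by decide
  have hz : ((D : ℤ) : ZMod 7) = 1 ∨ ((D : ℤ) : ZMod 7) = 2 ∨ ((D : ℤ) : ZMod 7) = 4 := by
    have e : ((D : ℤ) : ZMod 7) = ((D % 7 : ℤ) : ZMod 7) := by
      have := ZMod.intCast_mod D 7
      exact_mod_cast this.symm
    rw [e]
    rcases h with h | h | h <;> rw [h] <;> norm_num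
  obtain ⟨h1, h2⟩ := key _ hz
  unfold Pool.Agent.Q284.A.nrm
  split_ifs
  · obtain ⟨β, hβ⟩ := h1
    exact ⟨β, by rw [hβ]; push_cast; ring⟩
  · obtain ⟨β, hβ⟩ := h2
    exact ⟨β, by rw [hβ]; push_cast; ring⟩

theorem two_of {M : ℤ} (h : Family M) (h1 : M ≠ 1) : RankZeroShaTwo M ↔ TwoPart M := by
  obtain ⟨hc, hf⟩ := Pool.Agent.Q284.A.fam (D := M) h h1
  obtain ⟨β, hβ⟩ := exists_root hc.2.2.2.1
  have h4 : M % 4 = 1 := h.2.1
  have ht : torsionOrder M = 2 := Pool.Agent.Q284.A.tor_two h4 hc.1 hc.2.1 hc.2.2.1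
  obtain ⟨a1, a2, a3, a4, k, Y, k1, k2, k3, k4⟩ :=
    Pool.Agent.Q284.A.main_gen (D := M) hc (β := β) hβ
  have ht' : Pool.Agent.Q284.A.tor M = 2 := ht
  have hk : k = 1 := by omega
  have k5 : Quotient M (k * Y / 2 ^ expo M) := k4
  rw [hk, Nat.cast_one, one_mul] at k5
  obtain ⟨y, y1, y2⟩ := hf β hβ
  have y1' : Pool.Agent.Q284.A.gross M β = 3 * 2 ^ expo M * y := y1
  rw [zer_iff] at y2
  have hY : Y = 2 ^ expo M * y := by
    have h3 : 3 * Y = 3 * (2 ^ expo M * y) := by rw [← k3, y1']; ring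
    linarith
  have e : ((Y : ℝ) / 2 ^ expo M) = (y : ℝ) := by
    rw [hY]
    push_cast
    field_simp
  rw [e] at k5
  constructor
  · intro hz
    refine ⟨a1, ht, a2, a3, hz.1, fun n x hx => ?_, a4, y, y2.2 hz, k5⟩
    exact Pool.Agent.Q284.A.sha_two (D := M) h (zer_iff.2 hz) n x hx
  · rintro ⟨-, -, -, -, h1, h2, -⟩
    exact ⟨h1, fun x hx => h2 1 x (by rw [pow_one]; exact hx)⟩

open Classical in
theorem mat_eq {D : ℤ} (hD : Family D) : mat D = Y687.MQ.matD D := by
  obtain ⟨hP, -, -, -⟩ := Y687.MQ.of_admD (D := D) hD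
  ext i j
  have h1 : (8 ∣ points (i : ℕ)) ↔ 8 ∣ Y687.NN 1 (i : ℕ) :=
    Q283.TW.points_iff (hP i i.2)
  show (if i = j then
      (((D.natAbs.primeFactors.filter fun r : ℕ => r ≠ (i : ℕ) ∧
        ¬ IsSquare (r : ZMod (i : ℕ))).card : ZMod 2) + if 8 ∣ points (i : ℕ) then 0 else 1)
    else if IsSquare (((j : ℕ)) : ZMod (i : ℕ)) then 0 else 1) =
    (if i = j then
      (((D.natAbs.primeFactors.filter fun r : ℕ => r ≠ (i : ℕ) ∧
        ¬ IsSquare (r : ZMod (i : ℕ))).card : ZMod 2) + if 8 ∣ Y687.NN 1 (i : ℕ) then 0 else 1)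
    else if IsSquare (((j : ℕ)) : ZMod (i : ℕ)) then 0 else 1)
  by_cases h8 : 8 ∣ points (i : ℕ)
  · rw [if_pos h8, if_pos (h1.1 h8)]
  · rw [if_neg h8, if_neg (fun h => h8 (h1.2 h))]

theorem crit {M : ℤ} (h : Family M) : RankZeroShaTwo M ↔ (mat M).det ≠ 0 := by
  rw [mat_eq h]
  exact rz_iff h

open Classical in
/-- the bit -/
noncomputable def bit (i : ℕ) : ZMod 2 := if 8 ∣ points i then 0 else 1

lemma mat_matc (D : ℤ) : mat D = Pool.Agent.Q84.MB.matc bit D.natAbs.primeFactors (splitPrimes D) := rfl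

/-- the twist by `- p` -/
def tw (D : ℤ) (p : ℕ) : ℤ := -(D * p)

lemma tw_natAbs (D : ℤ) (p : ℕ) : (tw D p).natAbs = D.natAbs * p := by
  unfold tw
  rw [Int.natAbs_neg, Int.natAbs_mul, Int.natAbs_natCast]

lemma fam_tw {D : ℤ} {p : ℕ} (hD : Family D) (hp : p.Prime) (hp56 : p % 56 = 3) (hp3 : p ≠ 3)
    (hpD : ¬ (p : ℤ) ∣ D) : Family (tw D p) ∧ tw D p ≠ 1 := by
  obtain ⟨h1, h2, h3, h4⟩ := hD
  have hpD' : ¬ p ∣ D.natAbs := fun h => hpD (Int.natCast_dvd.2 h)
  refine ⟨⟨?_, ?_, ?_, ?_⟩, ?_⟩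
  · rw [← Int.squarefree_natAbs, tw_natAbs, Nat.squarefree_mul ((Nat.Prime.coprime_iff_not_dvd hp).2 hpD').symm]
    exact ⟨Int.squarefree_natAbs.2 h1, hp.squarefree⟩
  · unfold tw
    obtain ⟨k, hk⟩ : ∃ k : ℤ, (p : ℤ) = 56 * k + 3 := ⟨p / 56, by omega⟩
    obtain ⟨l, hl⟩ : ∃ l : ℤ, D = 4 * l + 1 := ⟨D / 4, by omega⟩
    rw [hk, hl]
    have e : -((4 * l + 1) * (56 * k + 3)) = 4 * (-(l * (56 * k + 3)) - 14 * k - 1) + 1 := by ring
    rw [e]
    omega
  · unfold tw
    obtain ⟨k, hk⟩ : ∃ k : ℤ, (p : ℤ) = 56 * k + 3 := ⟨p / 56, by omega⟩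
    obtain ⟨l, hl⟩ : ∃ l : ℤ, D = 7 * l + D % 7 := ⟨D / 7, by omega⟩
    rw [hk, hl]
    have e : -((7 * l + D % 7) * (56 * k + 3)) = 7 * (-(l * (56 * k + 3)) - 8 * k * (D % 7)) - 3 * (D % 7) := by ring
    rw [e]
    rcases h3 with h | h | h <;> rw [h] <;> omega
  · intro q hq hqd
    have hqd' : q ∣ D.natAbs * p := by
      rw [← tw_natAbs]
      exact Int.natCast_dvd.1 hqd
    rcases (Nat.Prime.dvd_mul hq).1 hqd' with h | h
    · exact h4 q hq (Int.natCast_dvd.2 h)
    · rw [(Nat.prime_dvd_prime_iff_eq hq hp).1 h]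
      exact ⟨hp3, Or.inr ⟨hp, by omega, by omega⟩⟩
  · intro h
    have h5 : D.natAbs * p = 1 := by rw [← tw_natAbs, h]; rfl
    have h6 : p ∣ 1 := Dvd.intro_left _ h5
    exact hp.one_lt.ne' (Nat.dvd_one.1 h6)

lemma det_tw {D : ℤ} {p : ℕ} (hD : Family D) (hp : p.Prime) (hp56 : p % 56 = 3)
    (hpD : ¬ (p : ℤ) ∣ D) (t : ℕ → ZMod 2) (ht : ∀ i ∈ splitPrimes D, (IsSquare (p : ZMod i) ↔ t i = 0)) :
    (mat (tw D p)).det = (mat D + Matrix.diagonal fun i : splitPrimes D => t i).det := by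
  have hD0 : D.natAbs ≠ 0 := Int.natAbs_ne_zero.2 hD.1.ne_zero
  have hpf : (tw D p).natAbs.primeFactors = insert p D.natAbs.primeFactors := by
    rw [tw_natAbs, Nat.primeFactors_mul hD0 hp.ne_zero, Nat.Prime.primeFactors hp, union_comm]
    rfl
  have hsp : splitPrimes (tw D p) = splitPrimes D := by
    unfold splitPrimes
    rw [hpf, filter_insert, if_neg (by omega)]
  have hpF : p ∉ D.natAbs.primeFactors := fun h => hpD (Int.natCast_dvd.2 (Nat.dvd_of_mem_primeFactors h))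
  have hTp : ∀ i ∈ splitPrimes D, i ≠ p := by
    rintro i hi rfl
    exact hpF (mem_filter.1 hi).1
  rw [mat_matc, mat_matc, hsp, hpf, Pool.Agent.Q84.MB.matc_insert bit _ _ p hpF hTp t ht]

end proof

/-- **One prime for all the small twists.** Let `ε > 0` and `Z` be given. There is `δ > 0` such that for all large
`x` there is a set `S` of at most `(log x) ^ (49 / 50)` primes, all larger than `Z`, with the following
properties, where `D` always denotes a number of `Family`, positive or negative, all of whose prime factors are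
at most `δ log x` and outside `S`.

(1) For every `t` at least `x ^ (1 - ε)` primes `p ≤ x`, `p = 3` modulo `56`, satisfy, for ALL `D` at once:
the 2-part of the formula with trivial `Ш[2^∞]` holds for `E_{-p D}` if and only if the matrix
`mat D + diag (t i)` is nonsingular.

(2) At least `x ^ (1 - ε)` such primes `p ≤ x` satisfy, for all `D` with at most two prime factors, all of them
split: the 2-part of the formula holds for `E_{-p D}`, with trivial `Ш[2^∞]`.

(3) At least `x ^ (1 - ε)` such primes `p ≤ x` satisfy, for all `D`: the 2-part of the formula with trivial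
`Ш[2^∞]` holds for `E_{-p D}` if and only if `E_D(ℚ)` is finite and `Ш(E_D)[2] = 0`. -/
theorem result (ε : ℝ) (hε : 0 < ε) (Z : ℕ) : ∃ δ : ℝ, 0 < δ ∧ ∃ x₀ : ℕ, ∀ x : ℕ, x₀ ≤ x →
    ∃ S : Finset ℕ, (∀ q ∈ S, q.Prime ∧ Z < q) ∧ (S.card : ℝ) ≤ (Real.log x) ^ (49 / 50 : ℝ) ∧
    -- (1)
    (∀ t : ℕ → ZMod 2, (x : ℝ) ^ (1 - ε) ≤ (count (fun p => ∀ D : ℤ, Family D →
      Small S (δ * Real.log x) D →
      (TwoPart (-(D * p)) ↔ (mat D + Matrix.diagonal fun i : splitPrimes D => t i).det ≠ 0)) x : ℝ)) ∧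
    -- (2)
    (x : ℝ) ^ (1 - ε) ≤ (count (fun p => ∀ D : ℤ, Family D → Small S (δ * Real.log x) D →
      D.natAbs.primeFactors.card ≤ 2 → (∀ q ∈ D.natAbs.primeFactors, q % 8 = 1) →
      TwoPart (-(D * p))) x : ℝ) ∧
    -- (3)
    (x : ℝ) ^ (1 - ε) ≤ (count (fun p => ∀ D : ℤ, Family D → Small S (δ * Real.log x) D →
      (TwoPart (-(D * p)) ↔ RankZeroShaTwo D)) x : ℝ) := by
  classical
  obtain ⟨δ, hδ, x₀, h⟩ := Pool.Agent.Q84.MB.sym_main (Z + 7) (by omega) ε hε
  refine ⟨δ, hδ, max x₀ 10, fun x hx => ?_⟩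
  have hx10 : 10 ≤ x := (le_max_right _ _).trans hx
  obtain ⟨h0, h0', S, hS, hSc, -, hmain⟩ := h x ((le_max_left _ _).trans hx)
  have hxr : (10 : ℝ) ≤ x := by exact_mod_cast hx10
  -- the main property
  have key : ∀ t : ℕ → ZMod 2, (x : ℝ) ^ (1 - ε) ≤ (count (fun p => ∀ D : ℤ, Family D →
      Small S (δ * Real.log x) D → (Family (tw D p) ∧ tw D p ≠ 1) ∧
      (mat (tw D p)).det = (mat D + Matrix.diagonal fun i : splitPrimes D => t i).det) x : ℝ) := by
    intro t
    refine (hmain 3 3 t (by norm_num) (by norm_num)).trans ?_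
    unfold count
    apply Nat.cast_le.2
    apply card_le_card
    intro p hp
    rw [mem_filter] at hp ⊢
    obtain ⟨h1, h2, h3, h4, h5, h6⟩ := hp
    have h4' : p % 8 = 3 := h4
    have h5' : p % 7 = 3 := h5
    have h56 : p % 56 = 3 := by omega
    have hp3 : p ≠ 3 := by
      rintro rfl
      push_cast at h3
      linarith
    refine ⟨h1, h2, h56, fun D hD hDs => ?_⟩
    have hpD : ¬ (p : ℤ) ∣ D := by
      intro hd
      have h7 := (hDs p h2 hd).1
      linarith
    refine ⟨fam_tw hD h2 h56 hp3 hpD, det_tw hD h2 h56 hpD t fun i hi => ?_⟩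
    unfold splitPrimes at hi
    rw [mem_filter, Nat.mem_primeFactors] at hi
    obtain ⟨⟨hi1, hi2, -⟩, hi3⟩ := hi
    obtain ⟨h8, h9⟩ := hDs i hi1 (Int.natCast_dvd.2 hi2)
    exact h6 i hi1 (by have := hi1.two_le; omega) (by rintro rfl; omega) h8 h9
  have mono : ∀ P Q : ℕ → Prop, (∀ p, P p → Q p) → count P x ≤ count Q x := by
    intro P Q hPQ
    unfold count
    apply card_le_card
    intro p hp
    rw [mem_filter] at hp ⊢
    exact ⟨hp.1, hp.2.1, hp.2.2.1, hPQ p hp.2.2.2⟩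
  refine ⟨S, fun q hq => ⟨(hS q hq).1, by have := (hS q hq).2; omega⟩, hSc, fun t => ?_, ?_, ?_⟩
  · refine (key t).trans (Nat.cast_le.2 (mono _ _ fun p hp D hD hDs => ?_))
    obtain ⟨⟨h1, h1'⟩, h2⟩ := hp D hD hDs
    rw [← h2, ← crit h1]
    exact (two_of h1 h1').symm
  · refine (key fun i => 1 + bit i).trans (Nat.cast_le.2 (mono _ _ fun p hp D hD hDs hDc hDq => ?_))
    obtain ⟨⟨h1, h1'⟩, h2⟩ := hp D hD hDs
    have h3 : splitPrimes D = D.natAbs.primeFactors := by
      unfold splitPrimes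
      exact filter_true_of_mem hDq
    have h4 : (mat D + Matrix.diagonal fun i : splitPrimes D => (1 + bit i)).det ≠ 0 := by
      rw [mat_matc, Pool.Agent.Q84.MB.matc_diag bit (fun i => 1 + bit i)]
      have h5 : (fun i => bit i + (1 + bit i)) = fun _ : ℕ => (1 : ZMod 2) := by
        funext i
        have : ∀ a : ZMod 2, a + (1 + a) = 1 := by decide
        exact this _
      rw [h5, h3]
      exact Pool.Agent.Q84.MB.det_two _ (fun q hq => ⟨Nat.prime_of_mem_primeFactors hq,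
        by have := hDq q hq; omega⟩) hDc
    refine (two_of h1 h1').1 ?_
    rw [crit h1, h2]
    exact h4
  · refine (key fun _ => 0).trans (Nat.cast_le.2 (mono _ _ fun p hp D hD hDs => ?_))
    obtain ⟨⟨h1, h1'⟩, h2⟩ := hp D hD hDs
    have h3 : (mat D + Matrix.diagonal fun i : splitPrimes D => (0 : ZMod 2)) = mat D := by
      rw [Matrix.diagonal_zero, add_zero]
    rw [h3] at h2
    refine (two_of h1 h1').symm.trans ?_
    rw [crit h1, h2, crit hD]

end Pool.Agent.Results.MP_9c97e9_nt.SimultaneousTwoPart
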